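import Pool.Agent.Helper49_G7.Chr
import Pool.Agent.Helper49_G7.Four

/-!
# The bilinear forms over a finite field of characteristic two
-/

set_option autoImplicit false

namespace Pool.Agent.G8.H98

open Finset Pool.Agent.G7.H49

/-! ### A weighted lower bound -/

section four

variable {X W I : Type} [Fintype X] [Fintype W] [Fintype I] [AddCommGroup W] [DecidableEq W]

/-- If all the twisted forms are bounded below, so is the weighted sum of correlations. -/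
theorem main_lowerK (p : Pairing X W) (hX : 0 < Fintype.card X) (x y : I → W → ℝ)
    (τ : I → I → W) (κ : I → I → ℝ) (Λ : ℝ)
    (h : ∀ χ, -(Λ / 2) * (∑ a, (hat p (x a) χ) ^ 2 + ∑ a, (hat p (y a) χ) ^ 2) ≤
      ∑ a, ∑ b, κ a b * (hat p (x a) χ * hat p (y b) χ * p.P χ (τ a b))) :
    -(Λ / 2) * (∑ a, ∑ w, (x a w) ^ 2 + ∑ a, ∑ w, (y a w) ^ 2) ≤
      ∑ a, ∑ b, κ a b * ∑ w, x a w * y b (w + τ a b) := by
  have h1 := Finset.sum_le_sum fun (χ : X) (_ : χ ∈ (univ : Finset X)) => h χ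
  have h2 : ∑ χ, -(Λ / 2) * (∑ a, (hat p (x a) χ) ^ 2 + ∑ a, (hat p (y a) χ) ^ 2) =
      Fintype.card X * (-(Λ / 2) * (∑ a, ∑ w, (x a w) ^ 2 + ∑ a, ∑ w, (y a w) ^ 2)) := by
    rw [← Finset.mul_sum, Finset.sum_add_distrib, Finset.sum_comm (γ := X) (α := I),
      Finset.sum_comm (γ := X) (α := I), Finset.sum_congr rfl fun a _ => parseval p (x a),
      Finset.sum_congr rfl fun a _ => parseval p (y a), ← Finset.mul_sum, ← Finset.mul_sum]
    ring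
  have h3 : ∑ χ, ∑ a, ∑ b, κ a b * (hat p (x a) χ * hat p (y b) χ * p.P χ (τ a b)) =
      Fintype.card X * ∑ a, ∑ b, κ a b * ∑ w, x a w * y b (w + τ a b) := by
    rw [Finset.sum_comm, Finset.mul_sum]
    refine Finset.sum_congr rfl fun a _ => ?_
    rw [Finset.sum_comm, Finset.mul_sum]
    refine Finset.sum_congr rfl fun b _ => ?_
    rw [← Finset.mul_sum, corr p (x a) (y b) (τ a b)]
    ring
  rw [h2, h3] at h1
  exact le_of_mul_le_mul_left h1 (by exact_mod_cast hX)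

end four

variable {F : Type} [Field F] [Fintype F] [DecidableEq F] [CharP F 2]

/-- the form; `k = (β, γ, ζ, δ, ε)` -/
def BB (k : F × F × F × F × F) (a b : F) : F :=
  k.1 * (a * b ^ 2) + k.2.1 * (a ^ 2 * b) + k.2.2.1 * (a ^ 4 * b + a * b ^ 4) +
    k.2.2.2.1 * (a ^ 8 * b + a * b ^ 8) + k.2.2.2.2 * (a ^ 16 * b + a * b ^ 16)

/-- the linearised polynomial of its radical -/
def LL (k : F × F × F × F × F) (d : F) : F :=
  k.1 ^ 8 * d ^ 8 + k.2.1 ^ 16 * d ^ 32 + (k.2.2.1 ^ 16 * d ^ 64 + k.2.2.1 ^ 4 * d ^ 4) +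
    (k.2.2.2.1 ^ 16 * d ^ 128 + k.2.2.2.1 ^ 2 * d ^ 2) +
    (k.2.2.2.2 ^ 16 * d ^ 256 + k.2.2.2.2 * d)

omit [Fintype F] [DecidableEq F] in
theorem add_pow_two (a a' : F) : (a + a') ^ 2 = a ^ 2 + a' ^ 2 := CharTwo.add_sq a a'

omit [Fintype F] [DecidableEq F] in
theorem add_pow_four (a a' : F) : (a + a') ^ 4 = a ^ 4 + a' ^ 4 := by
  have e : ∀ x : F, x ^ 4 = (x ^ 2) ^ 2 := fun x => by ring
  rw [e, add_pow_two, add_pow_two, ← e, ← e]

omit [Fintype F] [DecidableEq F] in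
theorem add_pow_eight (a a' : F) : (a + a') ^ 8 = a ^ 8 + a' ^ 8 := by
  have e : ∀ x : F, x ^ 8 = (x ^ 4) ^ 2 := fun x => by ring
  rw [e, add_pow_four, add_pow_two, ← e, ← e]

omit [Fintype F] [DecidableEq F] in
theorem add_pow_sixteen (a a' : F) : (a + a') ^ 16 = a ^ 16 + a' ^ 16 := by
  have e : ∀ x : F, x ^ 16 = (x ^ 8) ^ 2 := fun x => by ring
  rw [e, add_pow_eight, add_pow_two, ← e, ← e]

omit [Fintype F] [DecidableEq F] in
theorem BB_add (k : F × F × F × F × F) (a a' b : F) : BB k a b + BB k a' b = BB k (a + a') b := by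
  unfold BB
  rw [add_pow_two, add_pow_four, add_pow_eight, add_pow_sixteen]
  ring

omit [DecidableEq F] [CharP F 2] in
theorem ψ_pow2 (t : TrChar F) (x : F) : t.ψ (x ^ 2) = t.ψ x := t.sq x

omit [DecidableEq F] [CharP F 2] in
theorem ψ_pow4 (t : TrChar F) (x : F) : t.ψ (x ^ 4) = t.ψ x := t.pow4 x

omit [DecidableEq F] [CharP F 2] in
theorem ψ_pow8 (t : TrChar F) (x : F) : t.ψ (x ^ 8) = t.ψ x := by
  have e : x ^ 8 = (x ^ 4) ^ 2 := by ring
  rw [e, t.sq, t.pow4]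

omit [DecidableEq F] [CharP F 2] in
theorem ψ_pow16 (t : TrChar F) (x : F) : t.ψ (x ^ 16) = t.ψ x := by
  have e : x ^ 16 = (x ^ 8) ^ 2 := by ring
  rw [e, t.sq, ψ_pow8]

omit [DecidableEq F] [CharP F 2] in
theorem ψ_BB (t : TrChar F) (k : F × F × F × F × F) (d b : F) :
    t.ψ (BB k d b) = t.ψ (LL k d * b ^ 16) := by
  unfold BB LL
  rw [mul_add k.2.2.1, mul_add k.2.2.2.1, mul_add k.2.2.2.2]
  simp only [t.add]
  rw [← ψ_pow8 t (k.1 * (d * b ^ 2)), ← ψ_pow16 t (k.2.1 * (d ^ 2 * b)),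
    ← ψ_pow16 t (k.2.2.1 * (d ^ 4 * b)), ← ψ_pow4 t (k.2.2.1 * (d * b ^ 4)),
    ← ψ_pow16 t (k.2.2.2.1 * (d ^ 8 * b)), ← ψ_pow2 t (k.2.2.2.1 * (d * b ^ 8)),
    ← ψ_pow16 t (k.2.2.2.2 * (d ^ 16 * b))]
  simp only [← t.add]
  congr 1
  ring

omit [DecidableEq F] in
theorem pow16_bij : Function.Bijective (fun b : F => b ^ 16) := by
  rw [← Finite.injective_iff_bijective]
  intro b c h
  have h1 : b ^ 16 = c ^ 16 := h
  have h3 : (b + c) ^ 16 = 0 := by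
    rw [add_pow_sixteen, h1]
    exact CharTwo.add_self_eq_zero _
  exact CharTwo.add_eq_zero.1 (pow_eq_zero_iff (by norm_num) |>.1 h3)

theorem sum_BB (t : TrChar F) (k : F × F × F × F × F) (d : F) :
    ∑ b, t.ψ (BB k d b) = if LL k d = 0 then (Fintype.card F : ℝ) else 0 := by
  rw [← t.sum' (LL k d), Finset.sum_congr rfl fun b _ => ψ_BB t k d b]
  exact Function.Bijective.sum_comp pow16_bij (fun y => t.ψ (LL k d * y))

omit [CharP F 2] in
theorem card_LL {k : F × F × F × F × F} (h : k ≠ 0) :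
    (univ.filter (fun d : F => LL k d = 0)).card ≤ 256 := by
  obtain ⟨p, hp⟩ : ∃ p : Polynomial F, p = Polynomial.C (k.1 ^ 8) * Polynomial.X ^ 8 +
    Polynomial.C (k.2.1 ^ 16) * Polynomial.X ^ 32 + (Polynomial.C (k.2.2.1 ^ 16) *
    Polynomial.X ^ 64 + Polynomial.C (k.2.2.1 ^ 4) * Polynomial.X ^ 4) +
    (Polynomial.C (k.2.2.2.1 ^ 16) * Polynomial.X ^ 128 + Polynomial.C (k.2.2.2.1 ^ 2) *
    Polynomial.X ^ 2) + (Polynomial.C (k.2.2.2.2 ^ 16) * Polynomial.X ^ 256 +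
    Polynomial.C k.2.2.2.2 * Polynomial.X) := ⟨_, rfl⟩
  have hdeg : p.natDegree ≤ 256 := by
    rw [hp]
    compute_degree
  have hco : ∀ n, p.coeff n = k.1 ^ 8 * (if n = 8 then 1 else 0) +
      k.2.1 ^ 16 * (if n = 32 then 1 else 0) + (k.2.2.1 ^ 16 * (if n = 64 then 1 else 0) +
      k.2.2.1 ^ 4 * (if n = 4 then 1 else 0)) + (k.2.2.2.1 ^ 16 * (if n = 128 then 1 else 0) +
      k.2.2.2.1 ^ 2 * (if n = 2 then 1 else 0)) + (k.2.2.2.2 ^ 16 * (if n = 256 then 1 else 0) +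
      k.2.2.2.2 * (if n = 1 then 1 else 0)) := by
    intro n
    rw [hp]
    simp only [Polynomial.coeff_add, Polynomial.coeff_C_mul, Polynomial.coeff_X_pow,
      Polynomial.coeff_X, eq_comm (a := (1 : ℕ))]
  have hne : p ≠ 0 := by
    intro h0
    apply h
    have z : ∀ n, p.coeff n = 0 := fun n => by rw [h0, Polynomial.coeff_zero]
    have c8 := (hco 8).symm.trans (z 8)
    have c32 := (hco 32).symm.trans (z 32)
    have c64 := (hco 64).symm.trans (z 64)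
    have c128 := (hco 128).symm.trans (z 128)
    have c256 := (hco 256).symm.trans (z 256)
    norm_num at c8 c32 c64 c128 c256
    obtain ⟨k1, k2, k3, k4, k5⟩ := k
    simp only at c8 c32 c64 c128 c256
    rw [c8, c32, c64, c128, c256]
    rfl
  have hsub : (univ.filter (fun d : F => LL k d = 0)) ⊆ p.roots.toFinset := by
    intro d hd
    rw [mem_filter] at hd
    rw [Multiset.mem_toFinset, Polynomial.mem_roots hne, Polynomial.IsRoot.def, hp]
    simp only [Polynomial.eval_add, Polynomial.eval_mul, Polynomial.eval_C, Polynomial.eval_pow,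
      Polynomial.eval_X]
    exact hd.2
  calc _ ≤ p.roots.toFinset.card := Finset.card_le_card hsub
    _ ≤ Multiset.card p.roots := Multiset.toFinset_card_le _
    _ ≤ p.natDegree := Polynomial.card_roots' p
    _ ≤ 256 := hdeg

theorem sum_T (t : TrChar F) {k : F × F × F × F × F} (h : k ≠ 0) (f : F → ℝ) :
    ∑ b, (∑ a, f a * t.ψ (BB k a b)) ^ 2 ≤ 256 * Fintype.card F * ∑ a, (f a) ^ 2 := by
  obtain ⟨S, hS⟩ : ∃ S : F → ℝ, S = fun d => ∑ b, t.ψ (BB k d b) := ⟨_, rfl⟩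
  have hS' : ∀ d, S d = ∑ b, t.ψ (BB k d b) := fun d => by rw [hS]
  have hS0 : ∀ d, 0 ≤ S d := by
    intro d
    rw [hS', sum_BB]
    split
    · positivity
    · exact le_rfl
  have hSum : ∑ d, S d ≤ 256 * Fintype.card F := by
    rw [Finset.sum_congr rfl fun d _ => (hS' d).trans (sum_BB t k d), ← Finset.sum_filter,
      Finset.sum_const, nsmul_eq_mul]
    have h1 : ((univ.filter (fun d : F => LL k d = 0)).card : ℝ) ≤ 256 := by
      exact_mod_cast card_LL h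
    exact mul_le_mul_of_nonneg_right h1 (by positivity)
  have h1 : ∑ b, (∑ a, f a * t.ψ (BB k a b)) ^ 2 = ∑ a, ∑ a', f a * f a' * S (a + a') := by
    have h2 : ∀ b, (∑ a, f a * t.ψ (BB k a b)) ^ 2 =
        ∑ a, ∑ a', f a * f a' * t.ψ (BB k (a + a') b) := by
      intro b
      rw [pow_two, Finset.sum_mul_sum]
      refine Finset.sum_congr rfl fun a _ => Finset.sum_congr rfl fun a' _ => ?_
      rw [← BB_add, t.add]
      ring
    rw [Finset.sum_congr rfl fun b _ => h2 b, Finset.sum_comm]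
    refine Finset.sum_congr rfl fun a _ => ?_
    rw [Finset.sum_comm]
    refine Finset.sum_congr rfl fun a' _ => ?_
    rw [hS', Finset.mul_sum]
  have h3 : ∑ a, ∑ a', f a * f a' * S (a + a') ≤
      ∑ a, ∑ a', ((f a) ^ 2 / 2 * S (a + a') + (f a') ^ 2 / 2 * S (a + a')) := by
    refine Finset.sum_le_sum fun a _ => Finset.sum_le_sum fun a' _ => ?_
    have h4 : f a * f a' ≤ (f a) ^ 2 / 2 + (f a') ^ 2 / 2 := by
      nlinarith [sq_nonneg (f a - f a')]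
    calc f a * f a' * S (a + a') ≤ ((f a) ^ 2 / 2 + (f a') ^ 2 / 2) * S (a + a') :=
          mul_le_mul_of_nonneg_right h4 (hS0 _)
      _ = _ := by ring
  have h5 : ∀ a : F, ∑ a', S (a + a') = ∑ d, S d := fun a =>
    Equiv.sum_comp (Equiv.addLeft a) S
  have h6 : ∑ a, ∑ a', (f a) ^ 2 / 2 * S (a + a') = (∑ a, (f a) ^ 2) / 2 * ∑ d, S d := by
    rw [Finset.sum_div, Finset.sum_mul]
    refine Finset.sum_congr rfl fun a _ => ?_
    rw [← Finset.mul_sum, h5]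
  have h7 : ∑ a, ∑ a', (f a') ^ 2 / 2 * S (a + a') = (∑ a, (f a) ^ 2) / 2 * ∑ d, S d := by
    rw [Finset.sum_comm, ← h6]
    refine Finset.sum_congr rfl fun a _ => Finset.sum_congr rfl fun a' _ => ?_
    rw [add_comm]
  have h8 : ∑ a, ∑ a', ((f a) ^ 2 / 2 * S (a + a') + (f a') ^ 2 / 2 * S (a + a')) =
      (∑ a, (f a) ^ 2) * ∑ d, S d := by
    simp only [Finset.sum_add_distrib]
    rw [h6, h7]
    ring
  rw [h1]
  refine h3.trans ?_
  rw [h8, mul_comm]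
  exact mul_le_mul_of_nonneg_right hSum (Finset.sum_nonneg fun a _ => sq_nonneg _)

theorem form_lower (t : TrChar F) {k : F × F × F × F × F} (h : k ≠ 0) (f g : F → ℝ) (Λ : ℝ)
    (hΛ : 0 < Λ) (hΛ2 : Λ ^ 2 = 256 * Fintype.card F) :
    -(Λ / 2) * (∑ a, (f a) ^ 2 + ∑ a, (g a) ^ 2) ≤
      ∑ a, ∑ b, f a * g b * t.ψ (BB k a b) := by
  obtain ⟨T, hT⟩ : ∃ T : F → ℝ, T = fun b => ∑ a, f a * t.ψ (BB k a b) := ⟨_, rfl⟩
  have hT' : ∀ b, T b = ∑ a, f a * t.ψ (BB k a b) := fun b => by rw [hT]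
  have h1 : ∑ a, ∑ b, f a * g b * t.ψ (BB k a b) = ∑ b, g b * T b := by
    rw [Finset.sum_comm]
    refine Finset.sum_congr rfl fun b _ => ?_
    rw [hT', Finset.mul_sum]
    refine Finset.sum_congr rfl fun a _ => ?_
    ring
  have h2 : ∑ b, (T b) ^ 2 ≤ Λ ^ 2 * ∑ a, (f a) ^ 2 := by
    rw [hΛ2, hT]
    exact sum_T t h f
  have h3 : ∀ b, -(Λ / 2) * (g b) ^ 2 - (T b) ^ 2 / (2 * Λ) ≤ g b * T b := by
    intro b
    have h4 : 0 ≤ (Λ * g b + T b) ^ 2 / (2 * Λ) := by positivity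
    have h5 : (Λ * g b + T b) ^ 2 / (2 * Λ) =
        Λ / 2 * (g b) ^ 2 + g b * T b + (T b) ^ 2 / (2 * Λ) := by
      field_simp
      ring
    linarith
  have h6 := Finset.sum_le_sum fun (b : F) (_ : b ∈ (univ : Finset F)) => h3 b
  rw [Finset.sum_sub_distrib, ← Finset.mul_sum, ← Finset.sum_div] at h6
  have h7 : (∑ b, (T b) ^ 2) / (2 * Λ) ≤ Λ / 2 * ∑ a, (f a) ^ 2 := by
    rw [div_le_iff₀ (by positivity)]
    calc _ ≤ Λ ^ 2 * ∑ a, (f a) ^ 2 := h2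
      _ = _ := by ring
  rw [h1]
  linarith

/-- the pairing of `F⁴` with itself -/
noncomputable def pair (t : TrChar F) : Pairing (F × F × F × F) (F × F × F × F) where
  P χ w := t.ψ (χ.1 * w.1 + χ.2.1 * w.2.1 + χ.2.2.1 * w.2.2.1 + χ.2.2.2 * w.2.2.2)
  add χ v w := by
    rw [← t.add]
    congr 1
    simp only [Prod.fst_add, Prod.snd_add]
    ring
  sum w := by
    have h1 : ∀ χ : F × F × F × F,
        t.ψ (χ.1 * w.1 + χ.2.1 * w.2.1 + χ.2.2.1 * w.2.2.1 + χ.2.2.2 * w.2.2.2) =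
        t.ψ (w.1 * χ.1) * (t.ψ (w.2.1 * χ.2.1) * (t.ψ (w.2.2.1 * χ.2.2.1) *
          t.ψ (w.2.2.2 * χ.2.2.2))) := by
      intro χ
      rw [t.add, t.add, t.add, mul_comm χ.1, mul_comm χ.2.1, mul_comm χ.2.2.1,
        mul_comm χ.2.2.2]
      ring
    rw [Finset.sum_congr rfl fun χ _ => h1 χ, Fintype.sum_prod_type]
    simp only
    have h3 : ∀ f : F → ℝ, ∀ g : F → ℝ, ∑ y : F × F, f y.1 * g y.2 = (∑ y, f y) * ∑ z, g z := by
      intro f g
      rw [Fintype.sum_prod_type, Finset.sum_mul_sum]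
    have h4 : ∀ f : F → ℝ, ∀ g : F × F → ℝ, ∑ y : F × F × F, f y.1 * g y.2 =
        (∑ y, f y) * ∑ z, g z := by
      intro f g
      rw [Fintype.sum_prod_type, Finset.sum_mul_sum]
    have h2 : ∀ x : F, ∑ y : F × F × F, t.ψ (w.1 * x) * (t.ψ (w.2.1 * y.1) *
        (t.ψ (w.2.2.1 * y.2.1) * t.ψ (w.2.2.2 * y.2.2))) =
        t.ψ (w.1 * x) * ((∑ y, t.ψ (w.2.1 * y)) * ((∑ z, t.ψ (w.2.2.1 * z)) *
          ∑ z, t.ψ (w.2.2.2 * z))) := by
      intro x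
      rw [← Finset.mul_sum, h4 (fun y => t.ψ (w.2.1 * y))
        (fun y => t.ψ (w.2.2.1 * y.1) * t.ψ (w.2.2.2 * y.2)),
        h3 (fun y => t.ψ (w.2.2.1 * y)) (fun y => t.ψ (w.2.2.2 * y))]
    rw [Finset.sum_congr rfl fun x _ => h2 x, ← Finset.sum_mul, t.sum', t.sum', t.sum', t.sum']
    obtain ⟨w1, w2, w3, w4⟩ := w
    simp only [Prod.mk_eq_zero, Fintype.card_prod, Nat.cast_mul]
    by_cases e1 : w1 = 0 <;> by_cases e2 : w2 = 0 <;> by_cases e3 : w3 = 0 <;>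
      by_cases e4 : w4 = 0 <;> simp [e1, e2, e3, e4]
  two w := by
    refine Prod.ext ?_ (Prod.ext ?_ (Prod.ext ?_ ?_))
    · exact CharTwo.add_self_eq_zero _
    · exact CharTwo.add_self_eq_zero _
    · exact CharTwo.add_self_eq_zero _
    · exact CharTwo.add_self_eq_zero _

omit [DecidableEq F] in
/-- the value of the pairing at the shift of the graph -/
theorem ψ_shift (t : TrChar F) (k : F × F × F × F × F) (a b : F) :
    t.ψ (k.1 * (a * b ^ 2) + k.2.1 * (a ^ 2 * b) + k.2.2.1 * (a + b) ^ 5 +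
      k.2.2.2.1 * (a + b) ^ 9 + k.2.2.2.2 * (a + b) ^ 17) =
      t.ψ (k.2.2.1 * a ^ 5 + k.2.2.2.1 * a ^ 9 + k.2.2.2.2 * a ^ 17) *
      t.ψ (k.2.2.1 * b ^ 5 + k.2.2.2.1 * b ^ 9 + k.2.2.2.2 * b ^ 17) * t.ψ (BB k a b) := by
  rw [← t.add, ← t.add]
  congr 1
  have e5 : (a + b) ^ 5 = a ^ 5 + b ^ 5 + (a ^ 4 * b + a * b ^ 4) := by
    have : (a + b) ^ 5 = (a + b) ^ 4 * (a + b) := by ring
    rw [this, add_pow_four]
    ring
  have e9 : (a + b) ^ 9 = a ^ 9 + b ^ 9 + (a ^ 8 * b + a * b ^ 8) := by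
    have : (a + b) ^ 9 = (a + b) ^ 8 * (a + b) := by ring
    rw [this, add_pow_eight]
    ring
  have e17 : (a + b) ^ 17 = a ^ 17 + b ^ 17 + (a ^ 16 * b + a * b ^ 16) := by
    have : (a + b) ^ 17 = (a + b) ^ 16 * (a + b) := by ring
    rw [this, add_pow_sixteen]
    ring
  rw [e5, e9, e17]
  unfold BB
  ring

theorem twisted_lower (t : TrChar F) {k : F × F × F × F × F} (h : k ≠ 0) (f g : F → ℝ)
    (Λ : ℝ) (hΛ : 0 < Λ) (hΛ2 : Λ ^ 2 = 256 * Fintype.card F) :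
    -(Λ / 2) * (∑ a, (f a) ^ 2 + ∑ a, (g a) ^ 2) ≤
      ∑ a, ∑ b, f a * g b * t.ψ (k.1 * (a * b ^ 2) + k.2.1 * (a ^ 2 * b) +
        k.2.2.1 * (a + b) ^ 5 + k.2.2.2.1 * (a + b) ^ 9 + k.2.2.2.2 * (a + b) ^ 17) := by
  obtain ⟨s, hs⟩ : ∃ s : F → ℝ, s = fun a =>
    t.ψ (k.2.2.1 * a ^ 5 + k.2.2.2.1 * a ^ 9 + k.2.2.2.2 * a ^ 17) := ⟨_, rfl⟩
  have hs' : ∀ a, s a = t.ψ (k.2.2.1 * a ^ 5 + k.2.2.2.1 * a ^ 9 + k.2.2.2.2 * a ^ 17) :=
    fun a => by rw [hs]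
  have h1 := form_lower t h (fun a => f a * s a) (fun b => g b * s b) Λ hΛ hΛ2
  have h2 : ∀ (u : F → ℝ) (a : F), (u a * s a) ^ 2 = (u a) ^ 2 := by
    intro u a
    rw [mul_pow, hs', t.sq_eq, mul_one]
  simp only [h2] at h1
  refine h1.trans (le_of_eq ?_)
  refine Finset.sum_congr rfl fun a _ => Finset.sum_congr rfl fun b _ => ?_
  rw [ψ_shift, ← hs', ← hs']
  ring

end Pool.Agent.G8.H98
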