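import Mathlib

/-!
# Power sums of seven elements of a field of characteristic two
-/

set_option autoImplicit false

namespace Pool.Agent.G8.H98

open Finset

variable {F : Type} [Field F] [CharP F 2]

/-- The seven elements are roots of a monic polynomial of degree seven. -/
theorem exists_coeff (x : Fin 7 → F) (h0 : ∀ i, x i ≠ 0) :
    ∃ c : Fin 7 → F, c 0 ≠ 0 ∧ ∀ i, x i ^ 7 = ∑ j : Fin 7, c j * x i ^ (j : ℕ) := by
  obtain ⟨P, hP⟩ : ∃ P : Polynomial F, P = ∏ i, (Polynomial.X + Polynomial.C (x i)) := ⟨_, rfl⟩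
  have hm : P.Monic := by
    rw [hP]
    exact Polynomial.monic_prod_of_monic _ _ fun i _ => Polynomial.monic_X_add_C _
  have hd : P.natDegree = 7 := by
    rw [hP, Polynomial.natDegree_prod_of_monic _ _ fun i _ => Polynomial.monic_X_add_C _]
    simp
  refine ⟨fun j => P.coeff j, ?_, ?_⟩
  · show P.coeff 0 ≠ 0
    rw [Polynomial.coeff_zero_eq_eval_zero, hP, Polynomial.eval_prod]
    refine Finset.prod_ne_zero_iff.2 fun i _ => ?_
    simp only [Polynomial.eval_add, Polynomial.eval_X, Polynomial.eval_C, zero_add]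
    exact h0 i
  · intro i
    have h1 : P.eval (x i) = 0 := by
      rw [hP, Polynomial.eval_prod]
      refine Finset.prod_eq_zero (mem_univ i) ?_
      simp only [Polynomial.eval_add, Polynomial.eval_X, Polynomial.eval_C]
      exact CharTwo.add_self_eq_zero _
    rw [Polynomial.eval_eq_sum_range, hd, Finset.sum_range_succ, ← hd, hm.coeff_natDegree,
      one_mul, hd] at h1
    rw [Fin.sum_univ_eq_sum_range (fun j => P.coeff j * x i ^ j) 7]
    have h2 : (2 : F) = 0 := CharTwo.two_eq_zero
    linear_combination h1 - (∑ j ∈ range 7, P.coeff j * x i ^ j) * h2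

/-- If the power sums of degree 1, 3, 5, 9 of seven nonzero elements vanish, so does that of
degree 17. -/
theorem p17 (x : Fin 7 → F) (h0 : ∀ i, x i ≠ 0) (h1 : ∑ i, x i = 0) (h3 : ∑ i, x i ^ 3 = 0)
    (h5 : ∑ i, x i ^ 5 = 0) (h9 : ∑ i, x i ^ 9 = 0) : ∑ i, x i ^ 17 = 0 := by
  obtain ⟨p, hp⟩ : ∃ p : ℕ → F, p = fun k => ∑ i, x i ^ k := ⟨_, rfl⟩
  have hp' : ∀ k, p k = ∑ i, x i ^ k := fun k => by rw [hp]
  obtain ⟨c, hc0, hc⟩ := exists_coeff x h0
  have h2 : (2 : F) = 0 := CharTwo.two_eq_zero
  have hrec : ∀ k, p (k + 7) = c 0 * p k + c 1 * p (k + 1) + c 2 * p (k + 2) + c 3 * p (k + 3) +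
      c 4 * p (k + 4) + c 5 * p (k + 5) + c 6 * p (k + 6) := by
    intro k
    have e : p (k + 7) = ∑ i, ∑ j : Fin 7, c j * x i ^ (k + (j : ℕ)) := by
      rw [hp']
      refine Finset.sum_congr rfl fun i _ => ?_
      rw [pow_add, hc, Finset.mul_sum]
      refine Finset.sum_congr rfl fun j _ => ?_
      rw [pow_add]
      ring
    rw [e, Finset.sum_comm]
    have e2 : ∀ j : Fin 7, ∑ i, c j * x i ^ (k + (j : ℕ)) = c j * p (k + (j : ℕ)) := by
      intro j
      rw [hp', Finset.mul_sum]
    rw [Finset.sum_congr rfl fun j _ => e2 j, Fin.sum_univ_seven]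
    rfl
  have hev : ∀ k, p (2 * k) = p k ^ 2 := by
    intro k
    rw [hp', hp', CharTwo.sum_sq]
    refine Finset.sum_congr rfl fun i _ => ?_
    rw [mul_comm, pow_mul]
  have q0 : p 0 = 1 := by
    rw [hp']
    simp only [pow_zero, Finset.sum_const, card_univ, Fintype.card_fin, nsmul_eq_mul, mul_one]
    push_cast
    linear_combination 3 * h2
  have q1 : p 1 = 0 := by
    rw [hp', ← h1]
    refine Finset.sum_congr rfl fun i _ => pow_one _
  have q3 : p 3 = 0 := by rw [hp', h3]
  have q5 : p 5 = 0 := by rw [hp', h5]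
  have q9 : p 9 = 0 := by rw [hp', h9]
  have q2 : p 2 = 0 := by
    have := hev 1
    rw [q1] at this
    simpa using this
  have q4 : p 4 = 0 := by
    have := hev 2
    rw [q2] at this
    simpa using this
  have q8 : p 8 = 0 := by
    have := hev 4
    rw [q4] at this
    simpa using this
  have q6 : p 6 = 0 := by
    have := hev 3
    rw [q3] at this
    simpa using this
  have q12 : p 12 = 0 := by
    have := hev 6
    rw [q6] at this
    simpa using this
  have q10 : p 10 = 0 := by
    have := hev 5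
    rw [q5] at this
    simpa using this
  have r0 := hrec 0
  have r1 := hrec 1
  have r2 := hrec 2
  have r3 := hrec 3
  have r4 := hrec 4
  have r5 := hrec 5
  have r6 := hrec 6
  have r10 := hrec 10
  norm_num at r0 r1 r2 r3 r4 r5 r6 r10
  rw [q0, q1, q2, q3, q4, q5, q6] at r0
  have q7 : p 7 = c 0 := by rw [r0]; ring
  have hq7 : p 7 ≠ 0 := by rw [q7]; exact hc0
  have c6 : c 6 = 0 := by
    rw [q1, q2, q3, q4, q5, q6, q8] at r1
    have : c 6 * p 7 = 0 := by linear_combination -r1
    rcases mul_eq_zero.1 this with h | h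
    · exact h
    · exact absurd h hq7
  have c4 : c 4 = 0 := by
    rw [q3, q4, q5, q6, q8, q9, q10] at r3
    have : c 4 * p 7 = 0 := by linear_combination -r3
    rcases mul_eq_zero.1 this with h | h
    · exact h
    · exact absurd h hq7
  have c2 : c 2 = 0 := by
    rw [q5, q6, q8, q9, q10, q12, c6] at r5
    have : c 2 * p 7 = 0 := by linear_combination -r5
    rcases mul_eq_zero.1 this with h | h
    · exact h
    · exact absurd h hq7
  have c5 : c 5 = 0 := by
    rw [q2, q3, q4, q5, q6, q8, q9] at r2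
    have : c 5 * p 7 = 0 := by linear_combination -r2
    rcases mul_eq_zero.1 this with h | h
    · exact h
    · exact absurd h hq7
  have q11 : p 11 = c 3 * p 7 := by
    rw [r4, q4, q5, q6, q8, q9, q10]
    ring
  have q13 : p 13 = c 1 * p 7 := by
    rw [r6, q6, q8, q9, q10, q12, c5]
    ring
  rw [← hp', r10, q10, q11, q12, q13, c2, c4, c5, c6]
  linear_combination c 1 * c 3 * p 7 * h2

end Pool.Agent.G8.H98
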