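import Pool.Agent.Helper49_G7.Chr
import Pool.Agent.Helper49_G7.Gr
import Pool.Agent.Helper98_G8.Pow

/-!
# A graph of girth at least eight over a field with `2 ^ m` elements, `m` odd
-/

set_option autoImplicit false

namespace Pool.Agent.G8.H98

open Finset Pool.Agent.G7.H49

/-- Vertices `(a, b, c, z, w)`. -/
abbrev V8 (F : Type) := F × F × F × F × F

variable {F : Type} [Field F] [Fintype F] [CharP F 2]

/-- The graph: `(a, b, c, z, w)` and `(a', b', c', z', w')` are adjacent if `b' + c = a² a'`,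
`b + c' = a a'²`, `z + z' = (a + a')⁵`, `w + w' = (a + a')⁹` and `η (a + a')¹⁷` has trace one. -/
def gr8 (t : TrChar F) (η : F) : SimpleGraph (V8 F) where
  Adj u v := t.ψ (η * (u.1 + v.1) ^ 17) = -1 ∧ v.2.1 + u.2.2.1 = u.1 ^ 2 * v.1 ∧
    u.2.1 + v.2.2.1 = u.1 * v.1 ^ 2 ∧ u.2.2.2.1 + v.2.2.2.1 = (u.1 + v.1) ^ 5 ∧
    u.2.2.2.2 + v.2.2.2.2 = (u.1 + v.1) ^ 9
  symm := ⟨fun u v h => ⟨by rw [add_comm v.1]; exact h.1, by rw [h.2.2.1]; ring,
    by rw [h.2.1]; ring, by rw [add_comm, h.2.2.2.1, add_comm u.1],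
    by rw [add_comm, h.2.2.2.2, add_comm u.1]⟩⟩
  loopless := ⟨fun u h => by
    have h1 := h.1
    rw [CharTwo.add_self_eq_zero, zero_pow (by norm_num), mul_zero, t.zero] at h1
    norm_num at h1⟩

variable {t : TrChar F} {η : F}

theorem ne_fst {u v : V8 F} (h : (gr8 t η).Adj u v) : u.1 ≠ v.1 := by
  intro he
  have h1 := h.1
  rw [he, CharTwo.add_self_eq_zero, zero_pow (by norm_num), mul_zero, t.zero] at h1
  norm_num at h1

/-- The projection to the graph of girth seven. -/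
def prj (u : V8 F) : Vt F := (u.1, u.2.1, u.2.2.1, u.2.2.2.1)

theorem adj_prj {u v : V8 F} (h : (gr8 t η).Adj u v) : (gr F).Adj (prj u) (prj v) :=
  ⟨ne_fst h, h.2.1, h.2.2.1, h.2.2.2.1⟩

/-- Two neighbours of a vertex are distinguished by their first coordinate. -/
theorem fst_ne8 {u v w : V8 F} (h1 : (gr8 t η).Adj u v) (h2 : (gr8 t η).Adj v w) (hne : u ≠ w) :
    u.1 ≠ w.1 := by
  intro he
  apply hne
  obtain ⟨a, b, c, z, y⟩ := u
  obtain ⟨a', b', c', z', y'⟩ := v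
  obtain ⟨a'', b'', c'', z'', y''⟩ := w
  obtain ⟨-, h3, h4, h5, h9⟩ := h1
  obtain ⟨-, h6, h7, h8, h10⟩ := h2
  simp only at he h3 h4 h5 h6 h7 h8 h9 h10
  subst he
  have e1 : b = b'' := by linear_combination h4 - h6
  have e2 : c = c'' := by linear_combination h3 - h7
  have e3 : z = z'' := by linear_combination h5 - h8
  have e4 : y = y'' := by linear_combination h9 - h10
  rw [e1, e2, e3, e4]

theorem prj_ne {u v w : V8 F} (h1 : (gr8 t η).Adj u v) (h2 : (gr8 t η).Adj v w) (hne : u ≠ w) :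
    prj u ≠ prj w := by
  intro h
  have h' : (prj u).1 = (prj w).1 := by rw [h]
  exact fst_ne8 h1 h2 hne h'

/-- the potential of the third power -/
def po (u : V8 F) : F := u.1 ^ 3 + u.2.1 + u.2.2.1

theorem pow_three' {u v : V8 F} (h : (gr8 t η).Adj u v) : (u.1 + v.1) ^ 3 = po u + po v := by
  have h1 := h.2.1
  have h3 := h.2.2.1
  have h2 : (2 : F) = 0 := CharTwo.two_eq_zero
  unfold po
  linear_combination -h1 - h3 + (u.1 ^ 2 * v.1 + u.1 * v.1 ^ 2) * h2

/-- The product of seven signs `-1`. -/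
theorem no7 {v : Fin 7 → V8 F} (h : ∀ i, (gr8 t η).Adj (v i) (v (i + 1))) : False := by
  have h2 : (2 : F) = 0 := CharTwo.two_eq_zero
  have hsum : ∀ f : V8 F → F, ∑ i, (f (v i) + f (v (i + 1))) = 0 := by
    intro f
    rw [Finset.sum_add_distrib]
    have e : ∑ i : Fin 7, f (v (i + 1)) = ∑ i, f (v i) :=
      Equiv.sum_comp (Equiv.addRight (1 : Fin 7)) (fun i => f (v i))
    rw [e]
    exact CharTwo.add_self_eq_zero _
  obtain ⟨x, hx⟩ : ∃ x : Fin 7 → F, x = fun i => (v i).1 + (v (i + 1)).1 := ⟨_, rfl⟩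
  have hx' : ∀ i, x i = (v i).1 + (v (i + 1)).1 := fun i => by rw [hx]
  have h0 : ∀ i, x i ≠ 0 := by
    intro i hi
    rw [hx'] at hi
    exact ne_fst (h i) (CharTwo.add_eq_zero.1 hi)
  have h1 : ∑ i, x i = 0 := by
    rw [Finset.sum_congr rfl fun i _ => hx' i]
    exact hsum fun u => u.1
  have h3 : ∑ i, x i ^ 3 = 0 := by
    have e : ∀ i, x i ^ 3 = po (v i) + po (v (i + 1)) := by
      intro i
      rw [hx']
      exact pow_three' (h i)
    rw [Finset.sum_congr rfl fun i _ => e i]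
    exact hsum po
  have h5 : ∑ i, x i ^ 5 = 0 := by
    have e : ∀ i, x i ^ 5 = (v i).2.2.2.1 + (v (i + 1)).2.2.2.1 := by
      intro i
      rw [hx', (h i).2.2.2.1]
    rw [Finset.sum_congr rfl fun i _ => e i]
    exact hsum fun u => u.2.2.2.1
  have h9 : ∑ i, x i ^ 9 = 0 := by
    have e : ∀ i, x i ^ 9 = (v i).2.2.2.2 + (v (i + 1)).2.2.2.2 := by
      intro i
      rw [hx', (h i).2.2.2.2]
    rw [Finset.sum_congr rfl fun i _ => e i]
    exact hsum fun u => u.2.2.2.2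
  have h17 := p17 x h0 h1 h3 h5 h9
  have hψ : t.ψ (∑ i, η * x i ^ 17) = ∏ i, t.ψ (η * x i ^ 17) := by
    rw [Fin.sum_univ_seven, Fin.prod_univ_seven]
    simp only [t.add]
  rw [← Finset.mul_sum, h17, mul_zero, t.zero] at hψ
  have e : ∀ i, t.ψ (η * x i ^ 17) = -1 := by
    intro i
    rw [hx']
    exact (h i).1
  rw [Finset.prod_congr rfl fun i _ => e i] at hψ
  norm_num at hψ

end Pool.Agent.G8.H98
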