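import Pool.Agent.Helper49_G7.Cut
import Pool.Agent.Helper98_G8.Bil
import Pool.Agent.Helper98_G8.Gr

/-!
# Cuts of the graph
-/

set_option autoImplicit false

namespace Pool.Agent.G8.H98

open Finset Pool.Agent.G7.H49

variable {F : Type} [Field F] [Fintype F] [DecidableEq F] [CharP F 2]

/-- the neighbour of `u` with first coordinate `a` (if the trace of `η (u.1 + a)¹⁷` is one) -/
def nb8 (u : V8 F) (a : F) : V8 F :=
  (a, u.2.2.1 + u.1 ^ 2 * a, u.2.1 + u.1 * a ^ 2, u.2.2.2.1 + (u.1 + a) ^ 5,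
    u.2.2.2.2 + (u.1 + a) ^ 9)

variable {t : TrChar F} {η : F}

omit [DecidableEq F] in
theorem adj_iff8 (u : V8 F) (a : F) (w : F × F × F × F) :
    (gr8 t η).Adj u (a, w) ↔ t.ψ (η * (u.1 + a) ^ 17) = -1 ∧ w = (nb8 u a).2 := by
  have h2 : (2 : F) = 0 := CharTwo.two_eq_zero
  obtain ⟨a0, b, c, z, y⟩ := u
  obtain ⟨b', c', z', y'⟩ := w
  constructor
  · rintro ⟨h1, h3, h4, h5, h9⟩
    refine ⟨h1, Prod.ext ?_ (Prod.ext ?_ (Prod.ext ?_ ?_))⟩
    · show b' = c + a0 ^ 2 * a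
      have h3' : b' + c = a0 ^ 2 * a := h3
      linear_combination h3' - c * h2
    · show c' = b + a0 * a ^ 2
      have h4' : b + c' = a0 * a ^ 2 := h4
      linear_combination h4' - b * h2
    · show z' = z + (a0 + a) ^ 5
      have h5' : z + z' = (a0 + a) ^ 5 := h5
      linear_combination h5' - z * h2
    · show y' = y + (a0 + a) ^ 9
      have h9' : y + y' = (a0 + a) ^ 9 := h9
      linear_combination h9' - y * h2
  · rintro ⟨h1, h3⟩
    have e1 : b' = c + a0 ^ 2 * a := congrArg Prod.fst h3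
    have e2 : c' = b + a0 * a ^ 2 := congrArg (fun q : F × F × F × F => q.2.1) h3
    have e3 : z' = z + (a0 + a) ^ 5 := congrArg (fun q : F × F × F × F => q.2.2.1) h3
    have e4 : y' = y + (a0 + a) ^ 9 := congrArg (fun q : F × F × F × F => q.2.2.2) h3
    refine ⟨h1, ?_, ?_, ?_, ?_⟩
    · show b' + c = a0 ^ 2 * a
      linear_combination e1 + c * h2
    · show b + c' = a0 * a ^ 2
      linear_combination e2 + b * h2
    · show z + z' = (a0 + a) ^ 5
      linear_combination e3 + z * h2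
    · show y + y' = (a0 + a) ^ 9
      linear_combination e4 + y * h2

open Classical in
/-- sums over the neighbours -/
theorem sum_adj8 (u : V8 F) (g : V8 F → ℝ) :
    ∑ v, (if (gr8 t η).Adj u v then g v else 0) =
      ∑ a, (1 - t.ψ (η * (u.1 + a) ^ 17)) / 2 * g (nb8 u a) := by
  rw [Fintype.sum_prod_type]
  refine Finset.sum_congr rfl fun a _ => ?_
  simp only [adj_iff8]
  rcases t.val (η * (u.1 + a) ^ 17) with h | h
  · rw [h]
    have h1 : ¬ ((1 : ℝ) = -1) := by norm_num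
    simp only [h1, false_and, if_false, Finset.sum_const_zero]
    ring
  · rw [h]
    simp only [true_and]
    rw [Finset.sum_ite_eq' univ (nb8 u a).2 (fun w => g (a, w)), if_pos (mem_univ _)]
    have e : ((1 : ℝ) - -1) / 2 = 1 := by norm_num
    rw [e, one_mul]
    rfl

/-- the exchange of the two middle coordinates -/
def sw8 : (F × F × F × F) ≃ (F × F × F × F) where
  toFun w := (w.2.1, w.1, w.2.2)
  invFun w := (w.2.1, w.1, w.2.2)
  left_inv _ := rfl
  right_inv _ := rfl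

/-- the shift -/
def sh (a b : F) : F × F × F × F := (a * b ^ 2, a ^ 2 * b, (a + b) ^ 5, (a + b) ^ 9)

omit [Fintype F] [DecidableEq F] [CharP F 2] in
theorem nb8_eq (a b : F) (w : F × F × F × F) : nb8 (a, w) b = (b, sw8 (w + sh a b)) := rfl

omit [DecidableEq F] [CharP F 2] in
theorem sums (κ : F → F → ℝ) (x : V8 F → ℝ) :
    ∑ a : F, ∑ b : F, κ a b * ∑ w : F × F × F × F, x (a, w) * x (b, sw8 (w + sh a b)) =
      ∑ u : V8 F, ∑ b, κ u.1 b * (x u * x (nb8 u b)) := by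
  rw [Fintype.sum_prod_type]
  refine Finset.sum_congr rfl fun a _ => ?_
  rw [Finset.sum_comm (γ := F × F × F × F)]
  refine Finset.sum_congr rfl fun b _ => ?_
  rw [Finset.mul_sum]
  rfl

/-- The lower bound for a weight `κ`. -/
theorem lowerK (t : TrChar F) (x : V8 F → ℝ) (hx : ∀ v, x v ^ 2 = 1) (κ : F → F → ℝ) (Λ : ℝ)
    (h : ∀ χ : F × F × F × F, -(Λ / 2) * (∑ a, (hat (pair t) (fun w => x (a, w)) χ) ^ 2 +
      ∑ a, (hat (pair t) (fun w => x (a, sw8 w)) χ) ^ 2) ≤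
      ∑ a, ∑ b, κ a b * (hat (pair t) (fun w => x (a, w)) χ *
        hat (pair t) (fun w => x (b, sw8 w)) χ * (pair t).P χ (sh a b))) :
    -Λ * (Fintype.card F : ℝ) ^ 5 ≤ ∑ u : V8 F, ∑ b, κ u.1 b * (x u * x (nb8 u b)) := by
  have hX : (0 : ℝ) < Fintype.card F := by exact_mod_cast Fintype.card_pos
  have h0 : ∑ a : F, ∑ w : F × F × F × F, (x (a, w)) ^ 2 = (Fintype.card F : ℝ) ^ 5 := by
    simp only [hx, Finset.sum_const, card_univ, Fintype.card_prod, nsmul_eq_mul, mul_one]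
    push_cast
    ring
  have h0' : ∑ a : F, ∑ w : F × F × F × F, (x (a, sw8 w)) ^ 2 = (Fintype.card F : ℝ) ^ 5 := by
    simp only [hx, Finset.sum_const, card_univ, Fintype.card_prod, nsmul_eq_mul, mul_one]
    push_cast
    ring
  have hmain := main_lowerK (pair t) (by positivity) (fun a w => x (a, w))
    (fun a w => x (a, sw8 w)) sh κ Λ h
  rw [h0, h0', sums] at hmain
  linarith

theorem full_lower1 (t : TrChar F) (x : V8 F → ℝ) (hx : ∀ v, x v ^ 2 = 1) (Λ : ℝ)
    (hΛ : 0 < Λ) (hΛ2 : Λ ^ 2 = 256 * Fintype.card F) :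
    -Λ * (Fintype.card F : ℝ) ^ 5 ≤ ∑ u : V8 F, ∑ b, x u * x (nb8 u b) := by
  have hk := lowerK t x hx (fun _ _ => 1) Λ ?_
  · simpa only [one_mul] using hk
  · rintro ⟨β, γ, ζ, δ⟩
    simp only [one_mul]
    by_cases h : ((β, γ, ζ, δ, (0 : F)) : F × F × F × F × F) ≠ 0
    · have h1 := twisted_lower t h (fun a => hat (pair t) (fun w => x (a, w)) (β, γ, ζ, δ))
        (fun b => hat (pair t) (fun w => x (b, sw8 w)) (β, γ, ζ, δ)) Λ hΛ hΛ2
      refine h1.trans (le_of_eq ?_)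
      refine Finset.sum_congr rfl fun a _ => Finset.sum_congr rfl fun b _ => ?_
      congr 1
      show t.ψ _ = t.ψ (β * (a * b ^ 2) + γ * (a ^ 2 * b) + ζ * (a + b) ^ 5 + δ * (a + b) ^ 9)
      congr 1
      simp only
      ring
    · push Not at h
      have e1 : β = 0 := congrArg Prod.fst h
      have e2 : γ = 0 := congrArg (fun q : F × F × F × F × F => q.2.1) h
      have e3 : ζ = 0 := congrArg (fun q : F × F × F × F × F => q.2.2.1) h
      have e4 : δ = 0 := congrArg (fun q : F × F × F × F × F => q.2.2.2.1) h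
      rw [e1, e2, e3, e4]
      have hP : ∀ w, (pair t).P ((0, 0, 0, 0) : F × F × F × F) w = 1 := by
        intro w
        show t.ψ (0 * w.1 + 0 * w.2.1 + 0 * w.2.2.1 + 0 * w.2.2.2) = 1
        rw [zero_mul, zero_mul, zero_mul, zero_mul, add_zero, add_zero, add_zero, t.zero]
      have h2 : ∀ y : F × F × F × F → ℝ, hat (pair t) y (0, 0, 0, 0) = ∑ w, y w := by
        intro y
        unfold hat
        refine Finset.sum_congr rfl fun w _ => ?_
        rw [hP, mul_one]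
      simp only [hP, h2, mul_one]
      have h3 : ∀ a : F, ∑ w : F × F × F × F, x (a, sw8 w) = ∑ w, x (a, w) := fun a =>
        Equiv.sum_comp sw8 (fun w => x (a, w))
      simp only [h3]
      rw [← Finset.sum_mul_sum]
      have h4 : 0 ≤ Λ / 2 * (∑ a : F, (∑ w : F × F × F × F, x (a, w)) ^ 2 +
          ∑ a : F, (∑ w : F × F × F × F, x (a, w)) ^ 2) :=
        mul_nonneg (by positivity) (add_nonneg (Finset.sum_nonneg fun _ _ => sq_nonneg _)
          (Finset.sum_nonneg fun _ _ => sq_nonneg _))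
      have h5 := mul_self_nonneg (∑ a : F, ∑ w : F × F × F × F, x (a, w))
      linarith

theorem full_lower2 (t : TrChar F) (hη : η ≠ 0) (x : V8 F → ℝ) (hx : ∀ v, x v ^ 2 = 1) (Λ : ℝ)
    (hΛ : 0 < Λ) (hΛ2 : Λ ^ 2 = 256 * Fintype.card F) :
    -Λ * (Fintype.card F : ℝ) ^ 5 ≤
      ∑ u : V8 F, ∑ b, -t.ψ (η * (u.1 + b) ^ 17) * (x u * x (nb8 u b)) := by
  refine lowerK t x hx (fun a b => -t.ψ (η * (a + b) ^ 17)) Λ ?_
  rintro ⟨β, γ, ζ, δ⟩
  have h : ((β, γ, ζ, δ, η) : F × F × F × F × F) ≠ 0 := fun h0 =>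
    hη (congrArg (fun q : F × F × F × F × F => q.2.2.2.2) h0)
  have h1 := twisted_lower t h (fun a => hat (pair t) (fun w => x (a, w)) (β, γ, ζ, δ))
    (fun b => -hat (pair t) (fun w => x (b, sw8 w)) (β, γ, ζ, δ)) Λ hΛ hΛ2
  simp only [neg_sq] at h1
  refine h1.trans (le_of_eq ?_)
  refine Finset.sum_congr rfl fun a _ => Finset.sum_congr rfl fun b _ => ?_
  have e : t.ψ (β * (a * b ^ 2) + γ * (a ^ 2 * b) + ζ * (a + b) ^ 5 + δ * (a + b) ^ 9 +
      η * (a + b) ^ 17) = (pair t).P (β, γ, ζ, δ) (sh a b) * t.ψ (η * (a + b) ^ 17) := by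
    rw [t.add]
    rfl
  rw [e]
  ring

open Classical in
theorem form_lower8 (t : TrChar F) (hη : η ≠ 0) (x : V8 F → ℝ) (hx : ∀ v, x v = 1 ∨ x v = -1)
    (Λ : ℝ) (hΛ : 0 < Λ) (hΛ2 : Λ ^ 2 = 256 * Fintype.card F) :
    -Λ * (Fintype.card F : ℝ) ^ 5 ≤
      ∑ u, ∑ v, (if (gr8 t η).Adj u v then x u * x v else 0) := by
  have hsq : ∀ v, x v ^ 2 = 1 := by
    intro v
    rcases hx v with h | h <;> rw [h] <;> norm_num
  have h1 := full_lower1 t x hsq Λ hΛ hΛ2
  have h2 := full_lower2 t hη x hsq Λ hΛ hΛ2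
  have h3 : ∑ u, ∑ v, (if (gr8 t η).Adj u v then x u * x v else 0) =
      (∑ u : V8 F, ∑ b, x u * x (nb8 u b) +
        ∑ u : V8 F, ∑ b, -t.ψ (η * (u.1 + b) ^ 17) * (x u * x (nb8 u b))) / 2 := by
    rw [← Finset.sum_add_distrib, Finset.sum_div]
    refine Finset.sum_congr rfl fun u _ => ?_
    rw [sum_adj8 u (fun v => x u * x v), ← Finset.sum_add_distrib, Finset.sum_div]
    refine Finset.sum_congr rfl fun a _ => ?_
    ring
  rw [h3]
  linarith

/-- the number of steps -/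
noncomputable def NN (t : TrChar F) (η : F) : ℕ := (univ.filter fun s : F => t.ψ (η * s ^ 17) = -1).card

omit [DecidableEq F] [CharP F 2] in
theorem sum_steps (t : TrChar F) (η : F) :
    ∑ s, (1 - t.ψ (η * s ^ 17)) / 2 = (NN t η : ℝ) := by
  unfold NN
  rw [Finset.card_filter]
  push_cast
  refine Finset.sum_congr rfl fun s _ => ?_
  rcases t.val (η * s ^ 17) with h | h
  · rw [h, if_neg (by norm_num)]
    norm_num
  · rw [h, if_pos rfl]
    norm_num

theorem num_edges8 (t : TrChar F) (η : F) :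
    (({q : V8 F × V8 F | (gr8 t η).Adj q.1 q.2}.ncard : ℕ) : ℝ) =
    (Fintype.card F : ℝ) ^ 5 * NN t η := by
  classical
  rw [ncard_sum]
  have h1 : ∀ u : V8 F, ∑ v, (if (gr8 t η).Adj u v then (1 : ℝ) else 0) = NN t η := by
    intro u
    rw [sum_adj8 u (fun _ => 1), ← sum_steps]
    simp only [mul_one]
    exact Equiv.sum_comp (Equiv.addLeft u.1) (fun s => (1 - t.ψ (η * s ^ 17)) / 2)
  rw [Finset.sum_congr rfl fun u _ => h1 u, Finset.sum_const, card_univ, nsmul_eq_mul]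
  simp only [Fintype.card_prod]
  push_cast
  ring

theorem cut_le8 (t : TrChar F) (hη : η ≠ 0) (Λ : ℝ) (hΛ : 0 < Λ)
    (hΛ2 : Λ ^ 2 = 256 * Fintype.card F) (S : Set (V8 F)) :
    (({q : V8 F × V8 F | q.1 ∈ S ∧ q.2 ∉ S ∧ (gr8 t η).Adj q.1 q.2}.ncard : ℕ) : ℝ) ≤
      (Fintype.card F : ℝ) ^ 5 * NN t η / 4 + Λ / 4 * (Fintype.card F : ℝ) ^ 5 := by
  classical
  obtain ⟨x, hx⟩ : ∃ x : V8 F → ℝ, x = fun v => if v ∈ S then 1 else -1 := ⟨_, rfl⟩
  have hx1 : ∀ v ∈ S, x v = 1 := fun v hv => by rw [hx]; exact if_pos hv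
  have hx2 : ∀ v, v ∉ S → x v = -1 := fun v hv => by rw [hx]; exact if_neg hv
  have hxv : ∀ v, x v = 1 ∨ x v = -1 := fun v => by
    by_cases h : v ∈ S
    · exact Or.inl (hx1 v h)
    · exact Or.inr (hx2 v h)
  have h1 := form_lower8 t hη x hxv Λ hΛ hΛ2
  have h2 := num_edges8 t η
  rw [ncard_sum] at h2
  simp only at h2
  rw [ncard_sum]
  simp only
  -- the three double sums
  obtain ⟨c, hc⟩ : ∃ c : V8 F → V8 F → ℝ, c = fun u v =>
    if u ∈ S ∧ v ∉ S ∧ (gr8 t η).Adj u v then 1 else 0 := ⟨_, rfl⟩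
  have hc' : ∀ u v, c u v = if u ∈ S ∧ v ∉ S ∧ (gr8 t η).Adj u v then 1 else 0 := fun u v => by
    rw [hc]
  have key : ∀ u v : V8 F, (if (gr8 t η).Adj u v then (1 : ℝ) else 0) -
      (if (gr8 t η).Adj u v then x u * x v else 0) = 2 * c u v + 2 * c v u := by
    intro u v
    rw [hc', hc']
    by_cases ha : (gr8 t η).Adj u v
    · have ha' := ha.symm
      by_cases hu : u ∈ S
      · by_cases hv : v ∈ S
        · simp [ha, hu, hv, hx1]
        · simp [ha, hu, hv, hx1, hx2]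
          norm_num
      · by_cases hv : v ∈ S
        · simp [ha, ha', hu, hv, hx1, hx2]
          norm_num
        · simp [ha, hu, hv, hx2]
    · have ha' : ¬ (gr8 t η).Adj v u := fun h => ha h.symm
      simp [ha, ha']
  have hsum : ∑ u, ∑ v, ((if (gr8 t η).Adj u v then (1 : ℝ) else 0) -
      (if (gr8 t η).Adj u v then x u * x v else 0)) = 4 * ∑ u, ∑ v, c u v := by
    rw [Finset.sum_congr rfl fun u _ => Finset.sum_congr rfl fun v _ => key u v]
    simp only [Finset.sum_add_distrib, ← Finset.mul_sum]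
    have h3 : ∑ u, ∑ v, c v u = ∑ u, ∑ v, c u v := Finset.sum_comm
    rw [h3]
    ring
  simp only [Finset.sum_sub_distrib] at hsum
  rw [h2] at hsum
  have h5 : ∑ u, ∑ v, c u v ≤ (Fintype.card F : ℝ) ^ 5 * NN t η / 4 +
      Λ / 4 * (Fintype.card F : ℝ) ^ 5 := by linarith
  refine le_trans (le_of_eq ?_) h5
  refine Finset.sum_congr rfl fun u _ => Finset.sum_congr rfl fun v _ => ?_
  rw [hc']
  by_cases hcond : u ∈ S ∧ v ∉ S ∧ (gr8 t η).Adj u v
  · rw [if_pos hcond, if_pos hcond]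
  · rw [if_neg hcond, if_neg hcond]

/-- Some `η ≠ 0` has many steps. -/
theorem exists_η (t : TrChar F) : ∃ η : F, η ≠ 0 ∧ (Fintype.card F : ℝ) - 1 ≤ 2 * NN t η := by
  by_contra hcon
  push Not at hcon
  have h1 : ∑ η, (NN t η : ℝ) = (Fintype.card F : ℝ) * (Fintype.card F - 1) / 2 := by
    rw [Finset.sum_congr rfl fun η _ => (sum_steps t η).symm, Finset.sum_comm]
    have h2 : ∀ s : F, ∑ η, (1 - t.ψ (η * s ^ 17)) / 2 =
        if s = 0 then (0 : ℝ) else (Fintype.card F : ℝ) / 2 := by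
      intro s
      rw [← Finset.sum_div, Finset.sum_sub_distrib]
      have h3 : ∑ η, t.ψ (η * s ^ 17) = if s ^ 17 = 0 then (Fintype.card F : ℝ) else 0 := by
        rw [← t.sum' (s ^ 17)]
        refine Finset.sum_congr rfl fun η _ => by rw [mul_comm]
      rw [h3]
      by_cases hs : s = 0
      · rw [if_pos hs, if_pos (by rw [hs]; norm_num)]
        simp
      · rw [if_neg hs, if_neg (pow_ne_zero _ hs)]
        simp
    rw [Finset.sum_congr rfl fun s _ => h2 s, Finset.sum_ite, Finset.sum_const_zero, zero_add,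
      Finset.sum_const, nsmul_eq_mul, Finset.filter_ne', Finset.card_erase_of_mem (mem_univ _),
      card_univ, Nat.cast_sub Fintype.card_pos]
    push_cast
    ring
  have h0 : (NN t (0 : F) : ℝ) = 0 := by
    rw [← sum_steps]
    refine Finset.sum_eq_zero fun s _ => ?_
    rw [zero_mul, t.zero]
    norm_num
  have hc1 : (1 : ℝ) < Fintype.card F := by exact_mod_cast Fintype.one_lt_card
  have h4 : ∀ η ∈ (univ : Finset F), (NN t η : ℝ) ≤ ((Fintype.card F : ℝ) - 1) / 2 := by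
    intro η _
    by_cases hη : η = 0
    · rw [hη, h0]
      linarith
    · have := hcon η hη
      linarith
  have h5 : ∑ η, (NN t η : ℝ) < ∑ _η : F, ((Fintype.card F : ℝ) - 1) / 2 := by
    refine Finset.sum_lt_sum h4 ⟨0, mem_univ _, ?_⟩
    rw [h0]
    linarith
  rw [h1, Finset.sum_const, card_univ, nsmul_eq_mul] at h5
  linarith

end Pool.Agent.G8.H98
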