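import Pool.Agent.Helper49_G7.All
import Pool.Agent.Helper98_G8.Cut

/-!
# From special numbers of edges to all numbers of edges, girth eight
-/

set_option autoImplicit false

namespace Pool.Agent.G8.H98

open Pool.Agent.MC.H74 Pool.Agent.G7.H49

/-- No closed walks of length seven. -/
def NoSeven {V : Type} (G : SimpleGraph V) : Prop :=
  ∀ a b c d e f g, G.Adj a b → G.Adj b c → G.Adj c d → G.Adj d e → G.Adj e f → G.Adj f g →
    G.Adj g a → False

/-- There is a graph with `m` edges and girth at least eight, all cuts at most `m / 2 + K`. -/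
def Good8 (m : ℕ) (K : ℝ) : Prop :=
  ∃ (V : Type) (_ : Fintype V) (G : SimpleGraph V), {q : V × V | G.Adj q.1 q.2}.ncard = 2 * m ∧
    NoShort G ∧ NoSix G ∧ NoSeven G ∧ CutLe G (m / 2 + K)

theorem sum_noSeven {V W : Type} {G : SimpleGraph V} {H : SimpleGraph W} (hG : NoSeven G)
    (hH : NoSeven H) : NoSeven (G ⊕g H) := by
  rintro (a | a) (b | b) (c | c) (d | d) (e | e) (f | f) (g | g) h1 h2 h3 h4 h5 h6 h7 <;>
    simp only [SimpleGraph.sum_adj] at h1 h2 h3 h4 h5 h6 h7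
  · exact hG a b c d e f g h1 h2 h3 h4 h5 h6 h7
  · exact hH a b c d e f g h1 h2 h3 h4 h5 h6 h7

theorem good8_add {m m' : ℕ} {K K' : ℝ} (h : Good8 m K) (h' : Good8 m' K') :
    Good8 (m + m') (K + K') := by
  classical
  obtain ⟨V, fV, G, hG, nG, nG6, nG7, cG⟩ := h
  obtain ⟨W, fW, H, hH, nH, nH6, nH7, cH⟩ := h'
  have inl2 : Function.Injective (fun q : V × V => ((Sum.inl q.1 : V ⊕ W), (Sum.inl q.2 : V ⊕ W))) := by
    rintro ⟨a, b⟩ ⟨c, d⟩ hh
    simp only [Prod.mk.injEq, Sum.inl.injEq] at hh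
    exact Prod.ext hh.1 hh.2
  have inr2 : Function.Injective (fun q : W × W => ((Sum.inr q.1 : V ⊕ W), (Sum.inr q.2 : V ⊕ W))) := by
    rintro ⟨a, b⟩ ⟨c, d⟩ hh
    simp only [Prod.mk.injEq, Sum.inr.injEq] at hh
    exact Prod.ext hh.1 hh.2
  refine ⟨V ⊕ W, inferInstance, G ⊕g H, ?_, sum_noShort nG nH, sum_noSix nG6 nH6,
    sum_noSeven nG7 nH7, ?_⟩
  · have e : {q : (V ⊕ W) × (V ⊕ W) | (G ⊕g H).Adj q.1 q.2} =
        (fun q : V × V => ((Sum.inl q.1 : V ⊕ W), (Sum.inl q.2 : V ⊕ W))) ''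
          {q : V × V | G.Adj q.1 q.2} ∪
        (fun q : W × W => ((Sum.inr q.1 : V ⊕ W), (Sum.inr q.2 : V ⊕ W))) ''
          {q : W × W | H.Adj q.1 q.2} := by
      ext ⟨a, b⟩
      rcases a with a | a <;> rcases b with b | b <;>
        simp [SimpleGraph.sum_adj]
    rw [e, Set.ncard_union_eq, Set.ncard_image_of_injective _ inl2,
      Set.ncard_image_of_injective _ inr2, hG, hH, mul_add]
    · rw [Set.disjoint_left]
      rintro q ⟨x, _, rfl⟩ ⟨y, _, hy⟩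
      simp only [Prod.mk.injEq] at hy
      exact absurd hy.1 (by simp)
  · intro S
    have e : {q : (V ⊕ W) × (V ⊕ W) | q.1 ∈ S ∧ q.2 ∉ S ∧ (G ⊕g H).Adj q.1 q.2} ⊆
        (fun q : V × V => ((Sum.inl q.1 : V ⊕ W), (Sum.inl q.2 : V ⊕ W))) ''
          {q : V × V | q.1 ∈ Sum.inl ⁻¹' S ∧ q.2 ∉ Sum.inl ⁻¹' S ∧ G.Adj q.1 q.2} ∪
        (fun q : W × W => ((Sum.inr q.1 : V ⊕ W), (Sum.inr q.2 : V ⊕ W))) ''
          {q : W × W | q.1 ∈ Sum.inr ⁻¹' S ∧ q.2 ∉ Sum.inr ⁻¹' S ∧ H.Adj q.1 q.2} := by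
      rintro ⟨a, b⟩ ⟨h1, h2, h3⟩
      rcases a with a | a <;> rcases b with b | b <;>
        simp only [SimpleGraph.sum_adj] at h3
      · exact Or.inl ⟨(a, b), ⟨h1, h2, h3⟩, rfl⟩
      · exact Or.inr ⟨(a, b), ⟨h1, h2, h3⟩, rfl⟩
    have h1 := Set.ncard_le_ncard e (Set.toFinite _)
    have h2 := h1.trans (Set.ncard_union_le _ _)
    rw [Set.ncard_image_of_injective _ inl2, Set.ncard_image_of_injective _ inr2] at h2
    have h3 := cG (Sum.inl ⁻¹' S)
    have h4 := cH (Sum.inr ⁻¹' S)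
    have h5 : (({q : (V ⊕ W) × (V ⊕ W) | q.1 ∈ S ∧ q.2 ∉ S ∧ (G ⊕g H).Adj q.1 q.2}.ncard : ℕ) : ℝ)
        ≤ (({q : V × V | q.1 ∈ Sum.inl ⁻¹' S ∧ q.2 ∉ Sum.inl ⁻¹' S ∧ G.Adj q.1 q.2}.ncard : ℕ) : ℝ)
        + (({q : W × W | q.1 ∈ Sum.inr ⁻¹' S ∧ q.2 ∉ Sum.inr ⁻¹' S ∧ H.Adj q.1 q.2}.ncard : ℕ) :
          ℝ) := by
      exact_mod_cast h2
    push_cast
    linarith

theorem good8_mono {m : ℕ} {K K' : ℝ} (h : Good8 m K) (hK : K ≤ K') : Good8 m K' := by
  obtain ⟨V, fV, G, hG, nG, nG6, nG7, cG⟩ := h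
  exact ⟨V, fV, G, hG, nG, nG6, nG7, fun S => (cG S).trans (by linarith)⟩

theorem good8_zero : Good8 0 0 := by
  refine ⟨PEmpty, inferInstance, ⊥, ?_, ?_, ?_, ?_, ?_⟩
  · simp
  · exact ⟨fun a => a.elim, fun a => a.elim, fun a => a.elim⟩
  · exact fun a => a.elim
  · exact fun a => a.elim
  · intro S
    simp

theorem good8_one : Good8 1 (1 / 2) := by
  refine ⟨Bool, inferInstance, ⊤, ?_, ?_, ?_, ?_, ?_⟩
  · have : {q : Bool × Bool | (⊤ : SimpleGraph Bool).Adj q.1 q.2} =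
        (({(true, false), (false, true)} : Finset (Bool × Bool)) : Set (Bool × Bool)) := by
      ext ⟨a, b⟩
      cases a <;> cases b <;> simp
    rw [this, Set.ncard_coe_finset]
    rfl
  · refine ⟨?_, ?_, ?_⟩
    · intro a b c h1 h2 h3
      simp only [SimpleGraph.top_adj] at h1 h2 h3
      cases a <;> cases b <;> cases c <;> simp_all
    · intro a b c d h1 h2 h3 h4 n1 n2
      simp only [SimpleGraph.top_adj] at h1 h2 h3
      cases a <;> cases b <;> cases c <;> simp_all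
    · intro a b c d e h1 h2 h3 h4 h5 n1 n2 n3 n4 n5
      simp only [SimpleGraph.top_adj] at h1 h2 h3
      cases a <;> cases b <;> cases c <;> simp_all
  · intro a b c d e f h1 h2 h3 h4 h5 h6 n1 n2 n3 n4 n5 n6
    simp only [SimpleGraph.top_adj] at h1 h2 h3
    cases a <;> cases b <;> cases c <;> simp_all
  · intro a b c d e f g h1 h2 h3 h4 h5 h6 h7
    simp only [SimpleGraph.top_adj] at h1 h2 h3 h4 h5 h6 h7
    have hb : ∀ p q : Bool, p ≠ q → q = !p := by decide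
    have e1 := hb _ _ h1
    have e2 := hb _ _ h2
    have e3 := hb _ _ h3
    have e4 := hb _ _ h4
    have e5 := hb _ _ h5
    have e6 := hb _ _ h6
    rw [e6, e5, e4, e3, e2, e1] at h7
    simp at h7
  · intro S
    have h2 : {q : Bool × Bool | q.1 ∈ S ∧ q.2 ∉ S ∧ (⊤ : SimpleGraph Bool).Adj q.1 q.2}.ncard ≤ 1 := by
      rw [Set.ncard_le_one_iff]
      rintro ⟨a, b⟩ ⟨c, d⟩ ⟨h1, h2, h3⟩ ⟨h4, h5, h6⟩
      cases a <;> cases b <;> cases c <;> cases d <;> simp_all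
    calc _ ≤ ((1 : ℕ) : ℝ) := by exact_mod_cast h2
      _ ≤ _ := by norm_num

theorem good8_triv (m : ℕ) : Good8 m (m / 2) := by
  induction m with
  | zero => simpa using good8_zero
  | succ m ih =>
    have := good8_add ih good8_one
    refine good8_mono this ?_
    push_cast
    linarith

/-- From numbers of edges in every interval `[δ m, m]` to all numbers of edges. -/
theorem all8 (θ δ C : ℝ) (m0 : ℕ) (hθ : 0 < θ) (hδ0 : 0 < δ) (hδ1 : δ < 1) (hC : 0 < C)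
    (H : ∀ m : ℕ, m0 ≤ m → ∃ e : ℕ, 0 < e ∧ e ≤ m ∧ δ * m ≤ e ∧ Good8 e (C * (m : ℝ) ^ θ)) :
    ∃ c' : ℝ, 0 < c' ∧ ∀ m : ℕ, Good8 m (c' * (m : ℝ) ^ θ) := by
  obtain ⟨ρ, hρ⟩ : ∃ ρ : ℝ, ρ = (1 - δ) ^ θ := ⟨_, rfl⟩
  have hρ1 : ρ < 1 := by
    rw [hρ]
    exact Real.rpow_lt_one (by linarith) (by linarith) hθ
  obtain ⟨c', hc'⟩ : ∃ c' : ℝ, c' = C / (1 - ρ) + (m0 : ℝ) := ⟨_, rfl⟩
  have hCρ : 0 < C / (1 - ρ) := div_pos hC (by linarith)
  have hm00 : (0 : ℝ) ≤ m0 := Nat.cast_nonneg _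
  have hc'0 : 0 < c' := by
    rw [hc']
    positivity
  have hc'1 : (m0 : ℝ) ≤ c' := by
    rw [hc']
    linarith
  have hc'2 : C ≤ c' * (1 - ρ) := by
    have : C / (1 - ρ) ≤ c' := by
      rw [hc']
      linarith
    rwa [div_le_iff₀ (by linarith)] at this
  refine ⟨c', hc'0, ?_⟩
  intro m
  induction m using Nat.strong_induction_on with
  | _ m ih =>
    by_cases hm : m < m0
    · refine good8_mono (good8_triv m) ?_
      rcases Nat.eq_zero_or_pos m with h0 | h0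
      · subst h0
        simp [Real.zero_rpow hθ.ne']
      · have h1 : (1 : ℝ) ≤ (m : ℝ) ^ θ := Real.one_le_rpow (by exact_mod_cast h0) hθ.le
        have h2 : (m : ℝ) ≤ m0 := by exact_mod_cast hm.le
        have h3 : (m : ℝ) ≤ c' := h2.trans hc'1
        have h4 : c' * 1 ≤ c' * (m : ℝ) ^ θ := mul_le_mul_of_nonneg_left h1 hc'0.le
        have h5 : (0 : ℝ) ≤ m := Nat.cast_nonneg _
        linarith
    · push Not at hm
      obtain ⟨e, he0, hem', hδe, he⟩ := H m hm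
      have hem : (e : ℝ) ≤ m := by exact_mod_cast hem'
      have hm0 : (0 : ℝ) < m := by
        have : 0 < m := by omega
        exact_mod_cast this
      have h1 := good8_add he (ih (m - e) (by omega))
      have h2 : e + (m - e) = m := by omega
      rw [h2] at h1
      refine good8_mono h1 ?_
      have h3 : ((m - e : ℕ) : ℝ) ≤ (1 - δ) * m := by
        rw [Nat.cast_sub hem']
        linarith
      have h4 : ((m - e : ℕ) : ℝ) ^ θ ≤ ρ * (m : ℝ) ^ θ := by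
        rw [hρ, ← Real.mul_rpow (by linarith) hm0.le]
        exact Real.rpow_le_rpow (Nat.cast_nonneg _) h3 hθ.le
      have h7 : 0 ≤ (m : ℝ) ^ θ := by positivity
      calc C * (m : ℝ) ^ θ + c' * ((m - e : ℕ) : ℝ) ^ θ
          ≤ C * (m : ℝ) ^ θ + c' * (ρ * (m : ℝ) ^ θ) :=
            add_le_add le_rfl (mul_le_mul_of_nonneg_left h4 hc'0.le)
        _ = (C + c' * ρ) * (m : ℝ) ^ θ := by ring
        _ ≤ c' * (m : ℝ) ^ θ := by
            apply mul_le_mul_of_nonneg_right _ h7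
            linarith

/-! ### The graphs -/

/-- For every `q = 2 ^ (2 k + 1)` there is a good graph with `e` edges, `q⁵ (q - 1) ≤ 4 e`,
`2 e ≤ q⁶`. -/
theorem good_k (k : ℕ) : ∃ e : ℕ, ((2 : ℝ) ^ (2 * k + 1)) ^ 5 * ((2 : ℝ) ^ (2 * k + 1) - 1) ≤
    4 * (e : ℝ) ∧ 2 * (e : ℝ) ≤ ((2 : ℝ) ^ (2 * k + 1)) ^ 6 ∧
    Good8 e (4 * ((2 : ℝ) ^ (2 * k + 1)) ^ ((11 : ℝ) / 2)) := by
  classical
  have : Fact (Nat.Prime 2) := ⟨Nat.prime_two⟩
  let F := GaloisField 2 (2 * k + 1)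
  let _ : Fintype F := Fintype.ofFinite F
  have : CharP F 2 := inferInstance
  have hcard : Fintype.card F = 2 ^ (2 * k + 1) := by
    rw [← Nat.card_eq_fintype_card]
    exact GaloisField.card 2 (2 * k + 1) (by omega)
  obtain ⟨q, hq⟩ : ∃ q : ℝ, q = (Fintype.card F : ℝ) := ⟨_, rfl⟩
  have hq' : q = 2 ^ (2 * k + 1) := by
    rw [hq, hcard]
    push_cast
    rfl
  have hq2 : 2 ≤ q := by
    rw [hq']
    calc (2 : ℝ) = 2 ^ 1 := by norm_num
      _ ≤ _ := pow_le_pow_right₀ (by norm_num) (by omega)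
  obtain ⟨t⟩ := exists_trChar F
  obtain ⟨η, hη, hN⟩ := exists_η t
  have hN2 : NN t η ≤ Fintype.card F := Finset.card_le_univ _
  have hN2' : (NN t η : ℝ) ≤ q := by
    rw [hq]
    exact_mod_cast hN2
  rw [← hq] at hN
  have hedge := num_edges8 t η
  have hev : 2 ∣ Fintype.card F ^ 5 * NN t η := by
    rw [hcard]
    refine Dvd.dvd.mul_right ?_ _
    exact dvd_pow (dvd_pow_self 2 (by omega)) (by norm_num)
  obtain ⟨e, he⟩ := hev
  have he' : (Fintype.card F : ℝ) ^ 5 * NN t η = 2 * e := by exact_mod_cast he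
  rw [he'] at hedge
  have hed' : {q : V8 F × V8 F | (gr8 t η).Adj q.1 q.2}.ncard = 2 * e := by exact_mod_cast hedge
  rw [← hq] at he'
  have hq5 : 0 ≤ q ^ 5 := by positivity
  have h3 := no_cube_root (2 * k + 1) ⟨k, rfl⟩ hcard
  refine ⟨e, ?_, ?_, V8 F, inferInstance, gr8 t η, hed', ⟨?_, ?_, ?_⟩, ?_, ?_, ?_⟩
  · rw [← hq']
    have h4 := mul_le_mul_of_nonneg_left hN hq5
    linarith
  · rw [← hq', ← he']
    have h4 := mul_le_mul_of_nonneg_left hN2' hq5
    calc q ^ 5 * (NN t η : ℝ) ≤ q ^ 5 * q := h4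
      _ = q ^ 6 := by ring
  · intro a b c h1 h2 h3
    exact no3 (adj_prj h1) (adj_prj h2) (adj_prj h3)
  · intro a b c d h1 h2 h3 h4 n1 n2
    exact no4 (adj_prj h1) (adj_prj h2) (adj_prj h3) (adj_prj h4) (prj_ne h1 h2 n1)
      (prj_ne h2 h3 n2)
  · intro a b c d e h1 h2 h3 h4 h5 n1 n2 n3 n4 n5
    exact no5 (adj_prj h1) (adj_prj h2) (adj_prj h3) (adj_prj h4) (adj_prj h5)
  · intro a b c d e f h1 h2 h3' h4 h5 h6 n1 n2 n3 n4 n5 n6
    exact no6 h3 (adj_prj h1) (adj_prj h2) (adj_prj h3') (adj_prj h4) (adj_prj h5) (adj_prj h6)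
      (prj_ne h1 h2 n1) (prj_ne h2 h3' n2) (prj_ne h3' h4 n3) (prj_ne h4 h5 n4)
      (prj_ne h5 h6 n5) (prj_ne h6 h1 n6)
  · intro a b c d e f g h1 h2 h3' h4 h5 h6 h7
    refine no7 (t := t) (η := η) (v := ![a, b, c, d, e, f, g]) ?_
    intro i
    fin_cases i
    · exact h1
    · exact h2
    · exact h3'
    · exact h4
    · exact h5
    · exact h6
    · exact h7
  · intro S
    have hs0 : 0 < Real.sqrt q := Real.sqrt_pos.2 (by linarith)
    have hcut := cut_le8 t hη (16 * Real.sqrt q) (by positivity) (by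
      rw [← hq, mul_pow, Real.sq_sqrt (by linarith)]
      norm_num) S
    rw [← hq] at hcut
    refine hcut.trans ?_
    have e2 : (2 ^ (2 * k + 1) : ℝ) ^ ((11 : ℝ) / 2) = q ^ 5 * Real.sqrt q := by
      rw [← hq', Real.sqrt_eq_rpow, ← Real.rpow_natCast q 5, ← Real.rpow_add (by linarith)]
      norm_num
    rw [e2, he']
    linarith

theorem all_m8 : ∃ c' : ℝ, 0 < c' ∧ ∀ m : ℕ, Good8 m (c' * (m : ℝ) ^ ((11 : ℝ) / 12)) := by
  refine all8 (11 / 12) (1 / 16384) 8 32 (by norm_num) (by norm_num) (by norm_num) (by norm_num) ?_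
  intro m hm
  -- the scale
  have hex : ∃ k, 2 * m < (2 ^ (2 * (k + 1) + 1)) ^ 6 := by
    refine ⟨m, ?_⟩
    have h2 : m < 2 ^ m := Nat.lt_two_pow_self
    have h3 : 2 * 2 ^ m ≤ (2 ^ (2 * (m + 1) + 1)) ^ 6 := by
      rw [← pow_mul]
      calc 2 * 2 ^ m = 2 ^ (m + 1) := by ring
        _ ≤ _ := Nat.pow_le_pow_right (by norm_num) (by omega)
    omega
  classical
  obtain ⟨k, hk⟩ : ∃ k, k = Nat.find hex := ⟨_, rfl⟩
  have hk1 : 2 * m < (2 ^ (2 * (k + 1) + 1)) ^ 6 := by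
    rw [hk]
    exact Nat.find_spec hex
  have hk2 : (2 ^ (2 * k + 1)) ^ 6 ≤ 2 * m := by
    rcases Nat.eq_zero_or_pos k with h0 | h0
    · rw [h0]
      norm_num
      omega
    · have h1 := Nat.find_min hex (m := k - 1) (by omega)
      rw [Nat.sub_add_cancel h0] at h1
      omega
  obtain ⟨e, he1, he2, he3⟩ := good_k k
  obtain ⟨q, hq⟩ : ∃ q : ℝ, q = (2 : ℝ) ^ (2 * k + 1) := ⟨_, rfl⟩
  rw [← hq] at he1 he2 he3
  have hq2 : 2 ≤ q := by
    rw [hq]
    calc (2 : ℝ) = 2 ^ 1 := by norm_num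
      _ ≤ _ := pow_le_pow_right₀ (by norm_num) (by omega)
  have hm1 : q ^ 6 ≤ 2 * m := by
    rw [hq]
    exact_mod_cast hk2
  have hm2 : 2 * (m : ℝ) < 4096 * q ^ 6 := by
    have h1 : (2 * (m : ℝ)) < ((2 : ℝ) ^ (2 * (k + 1) + 1)) ^ 6 := by exact_mod_cast hk1
    have h2 : (2 : ℝ) ^ (2 * (k + 1) + 1) = 4 * q := by
      rw [hq]
      ring
    rw [h2, mul_pow] at h1
    norm_num at h1
    exact h1
  have hq5 : 0 < q ^ 5 := by positivity
  have h6 : q ^ 6 = q ^ 5 * q := by ring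
  have he4 : q ^ 6 ≤ 8 * (e : ℝ) := by
    have : q ^ 5 * (q - 1) = q ^ 6 - q ^ 5 := by ring
    nlinarith [mul_nonneg hq5.le (by linarith : 0 ≤ q - 2)]
  have hem : (e : ℝ) ≤ m := by linarith
  have hpos : (0 : ℝ) < e := by
    have : 0 < q ^ 6 := by positivity
    linarith
  refine ⟨e, by exact_mod_cast hpos, by exact_mod_cast hem, by linarith, ?_⟩
  refine good8_mono he3 ?_
  have h5 : q ^ ((11 : ℝ) / 2) = (q ^ 6) ^ ((11 : ℝ) / 12) := by
    rw [← Real.rpow_natCast q 6, ← Real.rpow_mul (by linarith)]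
    norm_num
  have h7 : (q ^ 6) ^ ((11 : ℝ) / 12) ≤ (2 * (m : ℝ)) ^ ((11 : ℝ) / 12) :=
    Real.rpow_le_rpow (by positivity) hm1 (by norm_num)
  have h8 : (2 * (m : ℝ)) ^ ((11 : ℝ) / 12) ≤ 2 * (m : ℝ) ^ ((11 : ℝ) / 12) := by
    rw [Real.mul_rpow (by norm_num) (Nat.cast_nonneg m)]
    apply mul_le_mul_of_nonneg_right _ (by positivity)
    calc (2 : ℝ) ^ ((11 : ℝ) / 12) ≤ 2 ^ (1 : ℝ) :=
          Real.rpow_le_rpow_of_exponent_le (by norm_num) (by norm_num)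
      _ = 2 := Real.rpow_one 2
  rw [h5]
  linarith

/-! ### Transfer to `Fin n` -/

theorem eight_le_egirth {V : Type} (G : SimpleGraph V) (h : NoShort G) (h6 : NoSix G)
    (h7 : NoSeven G) : (8 : ℕ∞) ≤ G.egirth := by
  rw [SimpleGraph.le_egirth]
  intro a w hw
  by_contra hlt
  push Not at hlt
  have h7' : w.length ≤ 7 := by
    have : (w.length : ℕ∞) < ((8 : ℕ) : ℕ∞) := hlt
    have := ENat.natCast_lt_natCast.1 this
    omega
  by_cases h5 : w.length = 7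
  · have hadj : ∀ i, i < w.length → G.Adj (w.getVert i) (w.getVert (i + 1)) :=
      fun i hi => w.adj_getVert_succ hi
    have h0 : w.getVert 0 = a := w.getVert_zero
    have hl : w.getVert w.length = a := w.getVert_length
    rw [h5] at hadj hl
    refine h7 a (w.getVert 1) (w.getVert 2) (w.getVert 3) (w.getVert 4) (w.getVert 5)
      (w.getVert 6) ?_ (hadj 1 (by norm_num)) (hadj 2 (by norm_num)) (hadj 3 (by norm_num))
      (hadj 4 (by norm_num)) (hadj 5 (by norm_num)) ?_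
    · have := hadj 0 (by norm_num)
      rwa [h0] at this
    · have := hadj 6 (by norm_num)
      rwa [hl] at this
  · have h8 := seven_le_egirth G h h6
    rw [SimpleGraph.le_egirth] at h8
    have h9 : ((7 : ℕ) : ℕ∞) ≤ (w.length : ℕ∞) := h8 a w hw
    have := ENat.natCast_le_natCast.1 h9
    omega

theorem fin8 {m : ℕ} {K : ℝ} (h : Good8 m K) :
    ∃ (n : ℕ) (G : SimpleGraph (Fin n)), G.edgeSet.ncard = m ∧ (8 : ℕ∞) ≤ G.egirth ∧
      ∀ S : Set (Fin n),
        (({q : Fin n × Fin n | q.1 ∈ S ∧ q.2 ∉ S ∧ G.Adj q.1 q.2}.ncard : ℕ) : ℝ) ≤ m / 2 + K := by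
  classical
  obtain ⟨V, hV, G, hm, hns, hn6, hn7, hcut⟩ := h
  let e : V ≃ Fin (Fintype.card V) := Fintype.equivFin V
  let G' : SimpleGraph (Fin (Fintype.card V)) := G.comap e.symm
  refine ⟨Fintype.card V, G', ?_, ?_, ?_⟩
  · have h1 := Pool.Agent.Helper62FIN.ncard_pairs G'
    have h2 : {q : Fin (Fintype.card V) × Fin (Fintype.card V) | G'.Adj q.1 q.2}.ncard =
        {q : V × V | G.Adj q.1 q.2}.ncard := by
      apply Set.ncard_congr (fun q _ => (e.symm q.1, e.symm q.2))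
      · intro q hq
        exact hq
      · intro q q' _ _ hqq
        have := Prod.ext_iff.1 hqq
        exact Prod.ext (e.symm.injective this.1) (e.symm.injective this.2)
      · intro q hq
        refine ⟨(e q.1, e q.2), ?_, ?_⟩
        · show G.Adj (e.symm (e q.1)) (e.symm (e q.2))
          simpa using hq
        · simp
    rw [h2, hm] at h1
    omega
  · obtain ⟨H3, H4, H5⟩ := hns
    refine eight_le_egirth _ ⟨?_, ?_, ?_⟩ ?_ ?_
    · intro a b c h1 h2 h3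
      exact H3 _ _ _ h1 h2 h3
    · intro a b c d h1 h2 h3 h4 n1 n2
      exact H4 _ _ _ _ h1 h2 h3 h4 (fun h => n1 (e.symm.injective h))
        (fun h => n2 (e.symm.injective h))
    · intro a b c d f h1 h2 h3 h4 h5 n1 n2 n3 n4 n5
      exact H5 _ _ _ _ _ h1 h2 h3 h4 h5 (fun h => n1 (e.symm.injective h))
        (fun h => n2 (e.symm.injective h)) (fun h => n3 (e.symm.injective h))
        (fun h => n4 (e.symm.injective h)) (fun h => n5 (e.symm.injective h))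
    · intro a b c d f g h1 h2 h3 h4 h5 h6 n1 n2 n3 n4 n5 n6
      exact hn6 _ _ _ _ _ _ h1 h2 h3 h4 h5 h6 (fun h => n1 (e.symm.injective h))
        (fun h => n2 (e.symm.injective h)) (fun h => n3 (e.symm.injective h))
        (fun h => n4 (e.symm.injective h)) (fun h => n5 (e.symm.injective h))
        (fun h => n6 (e.symm.injective h))
    · intro a b c d f g i h1 h2 h3 h4 h5 h6 h7
      exact hn7 _ _ _ _ _ _ _ h1 h2 h3 h4 h5 h6 h7
  · intro S
    have h1 := hcut (e.symm '' S)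
    have h2 : {q : Fin (Fintype.card V) × Fin (Fintype.card V) |
        q.1 ∈ S ∧ q.2 ∉ S ∧ G'.Adj q.1 q.2}.ncard =
        {q : V × V | q.1 ∈ e.symm '' S ∧ q.2 ∉ e.symm '' S ∧ G.Adj q.1 q.2}.ncard := by
      apply Set.ncard_congr (fun q _ => (e.symm q.1, e.symm q.2))
      · rintro q ⟨q1, q2, q3⟩
        refine ⟨⟨q.1, q1, rfl⟩, ?_, q3⟩
        rintro ⟨z, hz, hz'⟩
        exact q2 (e.symm.injective hz' ▸ hz)
      · intro q q' _ _ hqq
        have := Prod.ext_iff.1 hqq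
        exact Prod.ext (e.symm.injective this.1) (e.symm.injective this.2)
      · rintro q ⟨⟨z, hz, hz'⟩, q2, q3⟩
        refine ⟨(e q.1, e q.2), ⟨?_, ?_, ?_⟩, ?_⟩
        · rw [← hz']
          simpa using hz
        · intro h
          exact q2 ⟨e q.2, h, by simp⟩
        · show G.Adj (e.symm (e q.1)) (e.symm (e q.2))
          simpa using q3
        · simp
    rw [h2]
    exact h1

end Pool.Agent.G8.H98
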